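import Pool.Agent.H.MP_ec7c5f_an.A

namespace Pool.Agent.Results.MP_ec7c5f_an.No

open MeasureTheory Set

abbrev Lin := Quot fun u v : Metric.sphere (0 : ℂ) 1 × ℝ => v = (-u.1, -u.2)

def pts : Lin → Set ℂ :=
  Quot.lift (fun u => {z | z.re * (u.1 : ℂ).re + z.im * (u.1 : ℂ).im = u.2}) (by
    rintro u _ rfl
    ext z
    simp only [mem_ofPred_eq, coe_neg_sphere, Complex.neg_re, Complex.neg_im]
    constructor <;> intro h <;> linarith)

noncomputable def co : Lin → ℝ × ℝ × ℝ × ℝ × ℝ :=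
  Quot.lift (fun u => ((u.1 : ℂ).re ^ 2, (u.1 : ℂ).im ^ 2, (u.1 : ℂ).re * (u.1 : ℂ).im,
    u.2 * (u.1 : ℂ).re, u.2 * (u.1 : ℂ).im)) (by rintro u _ rfl; simp)

lemma co_cont : Continuous co := continuous_quot_lift _ (by fun_prop)

lemma co_sum (l : Lin) : (co l).1 + (co l).2.1 = 1 := by
  obtain ⟨u⟩ := l
  have := Complex.sq_norm_sub_sq_re (u.1 : ℂ)
  rw [norm_eq_of_mem_sphere u.1] at this
  change (u.1 : ℂ).re ^ 2 + (u.1 : ℂ).im ^ 2 = 1
  linarith

lemma pts1 (l : Lin) (h : (co l).2.1 ≠ 0) (z : ℂ) : z ∈ pts l ↔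
    z.im = (co l).2.2.2.2 / (co l).2.1 + -(co l).2.2.1 / (co l).2.1 * z.re := by
  obtain ⟨u⟩ := l
  have h' : (u.1 : ℂ).im ≠ 0 := fun e => h (by change (u.1 : ℂ).im ^ 2 = 0; simp [e])
  change z.re * (u.1 : ℂ).re + z.im * (u.1 : ℂ).im = u.2 ↔ z.im =
    u.2 * (u.1 : ℂ).im / (u.1 : ℂ).im ^ 2 + -((u.1 : ℂ).re * (u.1 : ℂ).im) / (u.1 : ℂ).im ^ 2 * z.re
  field_simp
  constructor <;> intro k <;> linarith

lemma pts2 (l : Lin) (h : (co l).1 ≠ 0) (z : ℂ) : z ∈ pts l ↔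
    z.re = (co l).2.2.2.1 / (co l).1 + -(co l).2.2.1 / (co l).1 * z.im := by
  obtain ⟨u⟩ := l
  have h' : (u.1 : ℂ).re ≠ 0 := fun e => h (by change (u.1 : ℂ).re ^ 2 = 0; simp [e])
  change z.re * (u.1 : ℂ).re + z.im * (u.1 : ℂ).im = u.2 ↔ z.re =
    u.2 * (u.1 : ℂ).re / (u.1 : ℂ).re ^ 2 + -((u.1 : ℂ).re * (u.1 : ℂ).im) / (u.1 : ℂ).re ^ 2 * z.im
  field_simp
  constructor <;> intro k <;> linarith

theorem result : ∃ E : Set ℂ, MeasurableSet E ∧ 0 < volume E ∧ volume E < ⊤ ∧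
    ¬ ∃ δ > (0 : ℝ), ∃ L : ℝ → Lin, ContinuousOn L (Ioo 0 δ) ∧
      ∀ t ∈ Ioo 0 δ, μH[1] (pts (L t) ∩ E) = ENNReal.ofReal t := by
  obtain ⟨E, e1, e2, e3, e4⟩ := Pool.Agent.H.MP_ec7c5f_an.block
  have m1 : MeasurePreserving (fun z : ℂ => (z.re, z.im)) := Complex.volume_preserving_equiv_real_prod
  have m2 : MeasurePreserving (fun z : ℂ => (z.im, z.re)) :=
    (Measure.measurePreserving_swap (μ := volume) (ν := volume)).comp m1
  refine ⟨(fun z : ℂ => (z.re, z.im)) ⁻¹' E ∪ (fun z : ℂ => (z.im, z.re)) ⁻¹' E,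
    (m1.measurable e1).union (m2.measurable e1), ?_, measure_union_lt_top ?_ ?_, ?_⟩
  · exact (e2.trans_eq (m1.measure_preimage e1.nullMeasurableSet).symm).trans_le
      (measure_mono subset_union_left)
  · rwa [m1.measure_preimage e1.nullMeasurableSet]
  · rwa [m2.measure_preimage e1.nullMeasurableSet]
  rintro ⟨δ, hδ, L, hL, h⟩
  set F := (fun z : ℂ => (z.re, z.im)) ⁻¹' E ∪ (fun z : ℂ => (z.im, z.re)) ⁻¹' E
  set s := min δ 1 / 2 with hs
  have s0 : 0 < s := by positivity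
  have s1 : s < δ := by linarith [min_le_left δ 1]
  have s2 : s < 1 := by linarith [min_le_right δ 1]
  have cc : ContinuousOn (fun t => co (L t)) (Ioo 0 δ) := co_cont.comp_continuousOn hL
  have main : ∀ (c a b : ℝ → ℝ) (φ : ℂ → ℝ × ℝ) (ψ : ℝ → ℝ → ℂ), ContinuousOn c (Ioo 0 δ) →
      ContinuousOn a (Ioo 0 δ) → ContinuousOn b (Ioo 0 δ) → c s ≠ 0 →
      (∀ t, c t ≠ 0 → ∀ z, z ∈ pts (L t) ↔ (φ z).2 = b t / c t + a t / c t * (φ z).1) →
      (∀ x y, φ (ψ x y) = (x, y)) → φ ⁻¹' E ⊆ F → (∀ x y x' y', |x - x'| ≤ dist (ψ x y) (ψ x' y')) →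
      (∀ x y x' y' u v : ℝ, u • ψ x y + v • ψ x' y' = ψ (u * x + v * x') (u * y + v * y')) → False := by
    intro c a b φ ψ hc ha hb c0 hp h1 h2 h3 h4
    have ev : ∀ᶠ t in nhds s, c t ≠ 0 ∧ t ∈ Ioo 0 δ ∧ t < 1 :=
      ((hc.continuousAt (Ioo_mem_nhds s0 s1)).eventually_ne c0).and
        (Filter.Eventually.and (Ioo_mem_nhds s0 s1) (gt_mem_nhds s2))
    obtain ⟨t, st, ht⟩ := (nhds_basis_Icc_pos s).mem_iff.1 ev
    have sub : ∀ r ∈ Icc s (s + t), c r ≠ 0 ∧ r ∈ Ioo 0 δ ∧ r < 1 := fun r hr =>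
      ht ⟨by linarith [hr.1], hr.2⟩
    have sb : Icc s (s + t) ⊆ Ioo 0 δ := fun r hr => (sub r hr).2.1
    have l := left_mem_Icc.2 (show s ≤ s + t by linarith)
    have r := right_mem_Icc.2 (show s ≤ s + t by linarith)
    obtain ⟨r, hr, X, hX⟩ := e4 s (s + t) (fun t => a t / c t) (fun t => b t / c t) (by linarith)
      ((ha.mono sb).div (hc.mono sb) fun r hr => (sub r hr).1)
      ((hb.mono sb).div (hc.mono sb) fun r hr => (sub r hr).1) (by
        by_contra k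
        push Not at k
        have : pts (L s) = pts (L (s + t)) := by
          ext z; rw [hp _ c0, hp _ (sub _ r).1, k.1, k.2]
        have e := h s (sb l)
        rw [this, h _ (sb r), ENNReal.ofReal_eq_ofReal_iff (by linarith) s0.le] at e
        linarith)
    have sg : segment ℝ (ψ X (b r / c r + a r / c r * X)) (ψ (X + 1) (b r / c r + a r / c r * (X + 1)))
        ⊆ pts (L r) ∩ F := by
      rintro _ ⟨u, v, u0, v0, uv, rfl⟩
      obtain rfl : u = 1 - v := by linarith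
      have v1 : v ≤ 1 := by linarith
      rw [h4, show (1 - v) * X + v * (X + 1) = X + v by ring,
        show (1 - v) * (b r / c r + a r / c r * X) + v * (b r / c r + a r / c r * (X + 1)) =
          b r / c r + a r / c r * (X + v) by ring]
      refine ⟨(hp _ (sub r hr).1 _).2 (by rw [h1]), h2 ?_⟩
      rw [mem_preimage, h1]
      exact hX _ ⟨by linarith, by linarith⟩
    have := measure_mono (μ := μH[1]) sg
    rw [hausdorffMeasure_segment, h r (sb hr), edist_dist,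
      ENNReal.ofReal_le_ofReal_iff (sb hr).1.le] at this
    have k := (h3 _ _ _ _).trans this
    simp at k
    linarith [(sub r hr).2.2]
  by_cases h0 : (co (L s)).2.1 = 0
  · refine main (fun t => (co (L t)).1) (fun t => -(co (L t)).2.2.1) (fun t => (co (L t)).2.2.2.1)
      (fun z => (z.im, z.re)) (fun x y => ⟨y, x⟩) cc.fst cc.snd.snd.fst.neg cc.snd.snd.snd.fst
      (fun e => by linarith [co_sum (L s)]) (fun t ht z => pts2 _ ht z) (fun _ _ => rfl)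
      subset_union_right (fun x y x' y' => ?_) fun _ _ _ _ _ _ => by simp [Complex.ext_iff]
    rw [dist_eq_norm]
    exact Complex.abs_im_le_norm ((⟨y, x⟩ : ℂ) - ⟨y', x'⟩)
  · refine main (fun t => (co (L t)).2.1) (fun t => -(co (L t)).2.2.1) (fun t => (co (L t)).2.2.2.2)
      (fun z => (z.re, z.im)) (fun x y => ⟨x, y⟩) cc.snd.fst cc.snd.snd.fst.neg cc.snd.snd.snd.snd
      h0 (fun t ht z => pts1 _ ht z) (fun _ _ => rfl)
      subset_union_left (fun x y x' y' => ?_) fun _ _ _ _ _ _ => by simp [Complex.ext_iff]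
    rw [dist_eq_norm]
    exact Complex.abs_re_le_norm ((⟨x, y⟩ : ℂ) - ⟨x', y'⟩)

end Pool.Agent.Results.MP_ec7c5f_an.No
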